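import Mathlib

namespace Pool.Agent.H.MP_60620c_an

open MeasureTheory Set

noncomputable def av {X : Type} [Fintype X] (f : X → ℝ) : ℝ := (∑ x, f x) / Fintype.card X

section
variable {X Y : Type} [Fintype X] [Fintype Y]

lemma av_prod (f : X × Y → ℝ) : av f = av fun a => av fun b => f (a, b) := by
  simp only [av, Fintype.sum_prod_type, Fintype.card_prod, Nat.cast_mul, ← Finset.sum_div]
  rw [div_div, mul_comm]

lemma av_add (f g : X → ℝ) : av (fun x => f x + g x) = av f + av g := by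
  simp only [av, Finset.sum_add_distrib, add_div]

lemma av_sub (f g : X → ℝ) : av (fun x => f x - g x) = av f - av g := by
  simp only [av, Finset.sum_sub_distrib, sub_div]

lemma av_mul (c : ℝ) (f : X → ℝ) : av (fun x => c * f x) = c * av f := by
  simp only [av, ← Finset.mul_sum, mul_div_assoc]

lemma av_mul' (c : ℝ) (f : X → ℝ) : av (fun x => f x * c) = av f * c := by
  simp only [mul_comm _ c, av_mul]

lemma av_const [Nonempty X] (c : ℝ) : av (fun _ : X => c) = c := by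
  have : (Fintype.card X : ℝ) ≠ 0 := by simp
  simp only [av, Finset.sum_const, Finset.card_univ, nsmul_eq_mul]
  field_simp

lemma av_mono {f g : X → ℝ} (h : ∀ x, f x ≤ g x) : av f ≤ av g := by
  unfold av
  gcongr with x
  exact h x

lemma av_nonneg {f : X → ℝ} (h : ∀ x, 0 ≤ f x) : 0 ≤ av f :=
  div_nonneg (Finset.sum_nonneg fun x _ => h x) (by positivity)

lemma av_bool (f : Bool → ℝ) : av f = (f false + f true) / 2 := by
  simp [av, add_comm]

lemma av_ex [Nonempty X] (f : X → ℝ) : ∃ x, f x ≤ av f := by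
  by_contra h
  push Not at h
  obtain ⟨x, hx⟩ := Finite.exists_min f
  have := av_mono (f := fun _ => f x) hx
  rw [av_const] at this
  linarith [h x]

lemma av3 (f g h : X → ℝ) :
    av (fun w : X × X × X => f w.1 * g w.2.1 * h w.2.2) = av f * av g * av h := by
  rw [av_prod]
  simp only [av_prod (X := X) (Y := X), av_mul, av_mul', mul_assoc]

lemma av3_add [Nonempty X] (f g h : X → ℝ) :
    av (fun w : X × X × X => f w.1 + g w.2.1 + h w.2.2) = av f + av g + av h := by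
  rw [av_prod]
  simp only [av_prod (X := X) (Y := X), av_add, av_const]

lemma av3_sq [Nonempty X] (f g h : X → ℝ) :
    av (fun w : X × X × X => (f w.1 + g w.2.1 + h w.2.2) ^ 2) =
      av (fun x => f x ^ 2) + av (fun x => g x ^ 2) + av (fun x => h x ^ 2) +
        2 * (av f * av g + av f * av h + av g * av h) := by
  have e : (fun w : X × X × X => (f w.1 + g w.2.1 + h w.2.2) ^ 2) = fun w =>
      (f w.1 ^ 2 + g w.2.1 ^ 2 + h w.2.2 ^ 2) + 2 * (f w.1 * g w.2.1 * (fun _ => 1) w.2.2 +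
        f w.1 * (fun _ => 1) w.2.1 * h w.2.2 + (fun _ => 1) w.1 * g w.2.1 * h w.2.2) := by
    funext w; ring
  rw [e, av_add, av_mul, av_add _ (fun w : X × X × X => (fun _ => (1 : ℝ)) w.1 * g w.2.1 * h w.2.2),
    av_add _ (fun w : X × X × X => f w.1 * (fun _ => (1 : ℝ)) w.2.1 * h w.2.2), av3 f g (fun _ => 1), av3 f (fun _ => 1) h,
    av3 (fun _ => 1) g h,
    av3_add (fun x => f x ^ 2) (fun x => g x ^ 2) (fun x => h x ^ 2), av_const]
  ring

lemma int_av {F : X → ℝ → ℝ} (h : ∀ x, Integrable (F x)) :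
    Integrable (fun z => av fun x => F x z) ∧ ∫ z, av (fun x => F x z) = av fun x => ∫ z, F x z := by
  refine ⟨(integrable_finsetSum _ fun x _ => h x).div_const _, ?_⟩
  simp only [av]
  rw [integral_div, integral_finsetSum _ fun x _ => h x]

end

def Om : ℕ → Type
  | 0 => Unit
  | n + 1 => (Bool × Om n) × (Bool × Om n) × (Bool × Om n)

instance fin : ∀ n, Fintype (Om n)
  | 0 => inferInstanceAs (Fintype Unit)
  | n + 1 =>
    letI := fin n
    inferInstanceAs (Fintype ((Bool × Om n) × (Bool × Om n) × (Bool × Om n)))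

instance ne : ∀ n, Nonempty (Om n)
  | 0 => inferInstanceAs (Nonempty Unit)
  | n + 1 =>
    haveI := ne n
    inferInstanceAs (Nonempty ((Bool × Om n) × (Bool × Om n) × (Bool × Om n)))

lemma av_succ (n : ℕ) (f : Om (n + 1) → ℝ) :
    av f = av (fun w : (Bool × Om n) × (Bool × Om n) × (Bool × Om n) => f w) := rfl

def bit (r : Bool) : ℝ := if r then 2 else 0

noncomputable def g (d : ℝ) (r : Bool) (a : ℝ × ℝ) : ℝ × ℝ := ((d + a.1) / 3, (bit r + a.2) / 3)

open Classical in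
noncomputable def T : (n : ℕ) → Om n → Finset (ℝ × ℝ)
  | 0, _ => {(0, 0)}
  | n + 1, w => (T n w.1.2).image (g 0 w.1.1) ∪ (T n w.2.1.2).image (g 1 w.2.1.1) ∪
      (T n w.2.2.2).image (g 2 w.2.2.1)

def Cov (S : Set ℝ) (v : ℝ) (n : ℕ) (w : Om n) : Set ℝ :=
  {z | ∃ a ∈ T n w, 3 ^ n * (z - a.1 - v * a.2) ∈ S}

def sh (v d : ℝ) (r : Bool) (z : ℝ) : ℝ := 3 * z - (d + v * bit r)

lemma cov_zero (S : Set ℝ) (v : ℝ) (w : Om 0) : Cov S v 0 w = S := by
  ext z; simp [Cov, T]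

lemma cov_succ (S : Set ℝ) (v : ℝ) (n : ℕ) (w : Om (n + 1)) (z : ℝ) :
    z ∈ Cov S v (n + 1) w ↔ sh v 0 w.1.1 z ∈ Cov S v n w.1.2 ∨ sh v 1 w.2.1.1 z ∈ Cov S v n w.2.1.2 ∨
      sh v 2 w.2.2.1 z ∈ Cov S v n w.2.2.2 := by
  have e : ∀ (d : ℝ) (r : Bool) (a : ℝ × ℝ), 3 ^ (n + 1) * (z - (g d r a).1 - v * (g d r a).2) =
      3 ^ n * (sh v d r z - a.1 - v * a.2) := by
    intro d r a; simp only [g, sh]; ring
  simp only [Cov, T, mem_ofPred_eq, Finset.mem_union, Finset.mem_image, or_and_right, exists_or,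
    exists_exists_and_eq_and, e, or_assoc]

lemma T_prop (n : ℕ) (w : Om n) : ∀ a ∈ T n w, 0 ≤ a.1 ∧ a.1 + 1 / 3 ^ n ≤ 1 ∧
    ∀ t ∈ cantorSet, a.2 + 1 / 3 ^ n * t ∈ cantorSet := by
  induction n with
  | zero => intro a ha; simp [T] at ha; simp [ha]
  | succ n ih =>
    have key : ∀ (d : ℝ) (r : Bool) (u : Om n), 0 ≤ d → d ≤ 2 → ∀ b ∈ T n u, 0 ≤ (g d r b).1 ∧
        (g d r b).1 + 1 / 3 ^ (n + 1) ≤ 1 ∧
        ∀ t ∈ cantorSet, (g d r b).2 + 1 / 3 ^ (n + 1) * t ∈ cantorSet := by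
      intro d r u h0 h2 b hb
      obtain ⟨h1, h3, h4⟩ := ih u b hb
      have e : (1 : ℝ) / 3 ^ (n + 1) = 1 / 3 ^ n / 3 := by rw [pow_succ]; field_simp
      refine ⟨by simp only [g]; positivity, by simp only [g]; rw [e]; linarith, fun t ht => ?_⟩
      rw [cantorSet_eq_union_halves]
      cases r
      · left; exact ⟨_, h4 t ht, by simp only [g, bit, e]; simp; ring⟩
      · right; exact ⟨_, h4 t ht, by simp only [g, bit, e]; simp; ring⟩
    intro a ha
    simp only [T, Finset.mem_union, Finset.mem_image] at ha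
    rcases ha with (⟨b, hb, rfl⟩ | ⟨b, hb, rfl⟩) | ⟨b, hb, rfl⟩
    · exact key _ _ _ (by norm_num) (by norm_num) b hb
    · exact key _ _ _ (by norm_num) (by norm_num) b hb
    · exact key _ _ _ (by norm_num) (by norm_num) b hb

lemma T_slope {n : ℕ} {w : Om n} {a : ℝ × ℝ} (ha : a ∈ T n w) :
    0 ≤ a.2 ∧ a.2 + 1 / 3 ^ n ≤ 1 := by
  have h := (T_prop n w a ha).2.2
  have h1 : (1 : ℝ) ∈ cantorSet := by
    simp only [cantorSet, mem_iInter]
    intro k
    induction k with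
    | zero => simp
    | succ k ih => right; exact ⟨1, ih, by norm_num⟩
  have := cantorSet_subset_unitInterval (h 0 zero_mem_cantorSet)
  have := cantorSet_subset_unitInterval (h 1 h1)
  simp_all

lemma cov_sub {v : ℝ} (hv : 0 ≤ v) {S : Set ℝ} (hS : S ⊆ Icc 0 (1 + v)) (n : ℕ) (w : Om n) :
    Cov S v n w ⊆ Icc 0 (1 + v) := by
  rintro z ⟨a, ha, hz⟩
  obtain ⟨h1, h2, -⟩ := T_prop n w a ha
  obtain ⟨h3, h4⟩ := T_slope ha
  obtain ⟨h5, h6⟩ := hS hz
  have p : (0 : ℝ) < 3 ^ n := by positivity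
  have h7 : 0 ≤ z - a.1 - v * a.2 := by
    by_contra h; push Not at h; nlinarith
  have h8 : z - a.1 - v * a.2 ≤ (1 + v) * (1 / 3 ^ n) := by
    rw [mul_one_div, le_div_iff₀ p]; linarith
  constructor <;> nlinarith

lemma cov_meas {S : Set ℝ} (hS : MeasurableSet S) (v : ℝ) (n : ℕ) (w : Om n) :
    MeasurableSet (Cov S v n w) := by
  have : Cov S v n w = ⋃ a ∈ T n w, (fun z => 3 ^ n * (z - a.1 - v * a.2)) ⁻¹' S := by
    ext z; simp [Cov]
  rw [this]
  exact Finset.measurableSet_biUnion _ fun a _ => hS.preimage (by fun_prop)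

lemma cov_fin {v : ℝ} (hv : 0 ≤ v) {S : Set ℝ} (hS : S ⊆ Icc 0 (1 + v)) (n : ℕ) (w : Om n) :
    volume (Cov S v n w) ≠ ⊤ :=
  ((measure_mono (cov_sub hv hS n w)).trans_lt measure_Icc_lt_top).ne

noncomputable def hf (v d : ℝ) (φ : ℝ → ℝ) (z : ℝ) : ℝ :=
  (φ (sh v d false z) + φ (sh v d true z)) / 2

lemma av_hf (v d : ℝ) {n : ℕ} (F : Om n → ℝ → ℝ) (z : ℝ) :
    av (fun x : Bool × Om n => F x.2 (sh v d x.1 z)) = hf v d (fun y => av fun w => F w y) z := by
  rw [av_prod, av_bool]; rfl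

lemma int_sh (v d : ℝ) (r : Bool) {φ : ℝ → ℝ} (h : Integrable φ) :
    Integrable (fun z => φ (sh v d r z)) ∧ ∫ z, φ (sh v d r z) = (∫ z, φ z) / 3 := by
  have h1 := h.comp_sub_right (d + v * bit r)
  refine ⟨h1.comp_mul_left' (R := 3) (by norm_num), ?_⟩
  have := Measure.integral_comp_mul_left (fun y => φ (y - (d + v * bit r))) 3
  simp only [sh]
  rw [this, integral_sub_right_eq_self φ, abs_of_pos (by norm_num), smul_eq_mul]
  ring

lemma int_hf (v d : ℝ) {φ : ℝ → ℝ} (h : Integrable φ) :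
    Integrable (hf v d φ) ∧ ∫ z, hf v d φ z = (∫ z, φ z) / 3 := by
  obtain ⟨a1, a2⟩ := int_sh v d false h
  obtain ⟨b1, b2⟩ := int_sh v d true h
  refine ⟨(a1.add b1).div_const 2, ?_⟩
  simp only [hf]
  rw [integral_div, integral_add a1 b1, a2, b2]; ring

noncomputable def tr (v : ℝ) (φ : ℝ → ℝ) (z : ℝ) : ℝ := hf v 0 φ z + hf v 1 φ z + hf v 2 φ z

lemma int_tr (v : ℝ) {φ : ℝ → ℝ} (h : Integrable φ) :
    Integrable (tr v φ) ∧ ∫ z, tr v φ z = ∫ z, φ z := by
  obtain ⟨a1, a2⟩ := int_hf v 0 h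
  obtain ⟨b1, b2⟩ := int_hf v 1 h
  obtain ⟨c1, c2⟩ := int_hf v 2 h
  refine ⟨(a1.add b1).add c1, ?_⟩
  simp only [tr]
  rw [integral_add (f := fun z => hf v 0 φ z + hf v 1 φ z) (a1.add b1) c1, integral_add a1 b1,
    a2, b2, c2]; ring

noncomputable def ind (S : Set ℝ) (z : ℝ) : ℝ := S.indicator 1 z

lemma int_ind {S : Set ℝ} (hS : MeasurableSet S) (h : volume S ≠ ⊤) :
    Integrable (ind S) ∧ ∫ z, ind S z = volume.real S :=
  ⟨(integrable_indicator_iff hS).2 (integrableOn_const h), integral_indicator_one hS⟩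

lemma ind01 (S : Set ℝ) (z : ℝ) : 0 ≤ ind S z ∧ ind S z ≤ 1 := by
  by_cases h : z ∈ S <;> simp [ind, h]

end Pool.Agent.H.MP_60620c_an
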