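import Pool.Agent.H.MP_60620c_an.A

namespace Pool.Agent.H.MP_60620c_an

open MeasureTheory Set

noncomputable def P (S : Set ℝ) (v : ℝ) (n : ℕ) (z : ℝ) : ℝ := av fun w => ind (Cov S v n w) z

lemma P01 (S : Set ℝ) (v : ℝ) (n : ℕ) (z : ℝ) : 0 ≤ P S v n z ∧ P S v n z ≤ 1 :=
  ⟨av_nonneg fun _ => (ind01 _ _).1, (av_mono fun _ => (ind01 _ _).2).trans (av_const 1).le⟩

lemma P_succ (S : Set ℝ) (v : ℝ) (n : ℕ) (z : ℝ) : P S v (n + 1) z =
    1 - (1 - hf v 0 (P S v n) z) * (1 - hf v 1 (P S v n) z) * (1 - hf v 2 (P S v n) z) := by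
  have e : ∀ d : ℝ, 1 - hf v d (P S v n) z =
      av fun x : Bool × Om n => 1 - ind (Cov S v n x.2) (sh v d x.1 z) := by
    intro d
    rw [av_sub, av_const, av_hf v d (fun w y => ind (Cov S v n w) y)]; rfl
  rw [e, e, e, ← av3, P, av_succ, eq_sub_iff_add_eq, ← av_add]
  refine Eq.trans ?_ (av_const (X := (Bool × Om n) × (Bool × Om n) × (Bool × Om n)) 1)
  congr 1
  funext w
  have := cov_succ S v n w z
  by_cases h0 : sh v 0 w.1.1 z ∈ Cov S v n w.1.2 <;>
  by_cases h1 : sh v 1 w.2.1.1 z ∈ Cov S v n w.2.1.2 <;>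
  by_cases h2 : sh v 2 w.2.2.1 z ∈ Cov S v n w.2.2.2 <;>
  simp [ind, indicator, this, h0, h1, h2]

lemma P_out {v : ℝ} (hv : 0 ≤ v) {S : Set ℝ} (hS : S ⊆ Icc 0 (1 + v)) (n : ℕ) {z : ℝ}
    (hz : z ∉ Icc 0 (1 + v)) : P S v n z = 0 := by
  have : ∀ w, ind (Cov S v n w) z = 0 := fun w => by
    simp [ind, show z ∉ Cov S v n w from fun h => hz (cov_sub hv hS n w h)]
  simp only [P, this, av_const]

lemma int_P {v : ℝ} (hv : 0 ≤ v) {S : Set ℝ} (hm : MeasurableSet S) (hS : S ⊆ Icc 0 (1 + v))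
    (n : ℕ) : Integrable (P S v n) ∧ ∫ z, P S v n z = av fun w => volume.real (Cov S v n w) := by
  have h := fun w => int_ind (cov_meas hm v n w) (cov_fin hv hS n w)
  have := int_av (F := fun w => ind (Cov S v n w)) fun w => (h w).1
  refine ⟨this.1, this.2.trans ?_⟩
  simp only [fun w => (h w).2]

lemma comb {N a b e f : ℝ} (a0 : 0 ≤ a) (a1 : a ≤ 1) (b0 : 0 ≤ b) (b1 : b ≤ 1) (hN : 0 ≤ N)
    (ha : N * a ≤ e * (2 - a)) (hb : N * b ≤ f * (2 - b)) :
    N * (1 - (1 - a) * (1 - b)) ≤ (e + f) * (2 - (1 - (1 - a) * (1 - b))) := by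
  have pa : 0 < 2 - a := by linarith
  have pb : 0 < 2 - b := by linarith
  have pc : 0 ≤ 2 - (1 - (1 - a) * (1 - b)) := by nlinarith
  have m0 : 0 ≤ a + b - a * b := by nlinarith
  refine le_of_mul_le_mul_right ?_ (mul_pos pa pb)
  have h1 := mul_le_mul_of_nonneg_right ha (mul_nonneg pb.le pc)
  have h2 := mul_le_mul_of_nonneg_right hb (mul_nonneg pa.le pc)
  have h3 := mul_nonneg hN (mul_nonneg m0 (mul_nonneg a0 b0))
  nlinarith

lemma half {n p E : ℝ} (p0 : 0 ≤ p) (p1 : p ≤ 1) (h : n ^ 2 * p ≤ E * (2 - p)) :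
    (n + 1) ^ 2 * (p / 2) ≤ (2 + E) / 2 * (2 - p / 2) := by
  have pa : 0 < 2 - p := by linarith
  refine le_of_mul_le_mul_right ?_ pa
  have h1 := mul_le_mul_of_nonneg_right h (show 0 ≤ 4 - p by linarith)
  nlinarith [sq_nonneg (4 - 2 * p - n * p)]

lemma upper_aux {v : ℝ} (hv : 1 < v) (n : ℕ) : ∃ E : ℝ → ℝ, Integrable E ∧ (∀ z, 0 ≤ E z) ∧
    (∀ z, (n : ℝ) ^ 2 * P (Icc 0 (1 + v)) v n z ≤ E z * (2 - P (Icc 0 (1 + v)) v n z)) ∧
    ∫ z, E z = 2 * (1 + v) * n := by
  set S := Icc 0 (1 + v) with hS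
  induction n with
  | zero => exact ⟨0, integrable_zero _ _ _, by simp, by simp, by simp⟩
  | succ n ih =>
    obtain ⟨E, hi, h0, h1, h2⟩ := ih
    obtain ⟨i1, i2⟩ := int_ind (S := S) measurableSet_Icc measure_Icc_lt_top.ne
    set F : ℝ → ℝ := fun z => 2 * ind S z + E z with hF
    have F0 : ∀ z, 0 ≤ F z := fun z => by
      have := (ind01 S z).1
      have := h0 z
      positivity
    have Fi : Integrable F := (i1.const_mul 2).add hi
    have one : ∀ y, ((n : ℝ) + 1) ^ 2 * (P S v n y / 2) ≤ F y / 2 * (2 - P S v n y / 2) := by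
      intro y
      by_cases hy : y ∈ S
      · have := half (P01 S v n y).1 (P01 S v n y).2 (h1 y)
        simpa [hF, ind, hy] using this
      · rw [P_out (by linarith) subset_rfl n hy]
        have := F0 y
        simp; positivity
    have key : ∀ d z, 0 ≤ hf v d (P S v n) z ∧ hf v d (P S v n) z ≤ 1 ∧
        ((n : ℝ) + 1) ^ 2 * hf v d (P S v n) z ≤ hf v d F z * (2 - hf v d (P S v n) z) := by
      intro d z
      have a := P01 S v n (sh v d false z)
      have b := P01 S v n (sh v d true z)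
      refine ⟨by simp only [hf]; linarith [a.1, b.1], by simp only [hf]; linarith [a.2, b.2], ?_⟩
      have fa := F0 (sh v d false z)
      have fb := F0 (sh v d true z)
      by_cases hy : sh v d false z ∈ S
      · have : sh v d true z ∉ S := by
          intro h
          have := hy.2
          have := h.1
          simp only [sh, bit] at *
          simp at *
          linarith
        have o := one (sh v d false z)
        have z0 : P S v n (sh v d true z) = 0 := P_out (by linarith) subset_rfl n this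
        simp only [hf, z0, add_zero]
        nlinarith [a.2, mul_nonneg fb (sub_nonneg.2 a.2)]
      · have o := one (sh v d true z)
        have z0 : P S v n (sh v d false z) = 0 := P_out (by linarith) subset_rfl n hy
        simp only [hf, z0, zero_add]
        nlinarith [b.2, mul_nonneg fa (sub_nonneg.2 b.2)]
    refine ⟨tr v F, (int_tr v Fi).1, fun z => ?_, fun z => ?_, ?_⟩
    · simp only [tr, hf]
      have := F0
      have := F0 (sh v 0 false z)
      have := F0 (sh v 0 true z)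
      have := F0 (sh v 1 false z)
      have := F0 (sh v 1 true z)
      have := F0 (sh v 2 false z)
      have := F0 (sh v 2 true z)
      positivity
    · obtain ⟨a0, a1, a2⟩ := key 0 z
      obtain ⟨b0, b1, b2⟩ := key 1 z
      obtain ⟨c0, c1, c2⟩ := key 2 z
      have N0 : 0 ≤ ((n : ℝ) + 1) ^ 2 := by positivity
      have s1 := comb a0 a1 b0 b1 N0 a2 b2
      have s2 := comb (by nlinarith) (by nlinarith) c0 c1 N0 s1 c2
      rw [P_succ]
      push_cast
      simpa [tr] using s2
    · rw [(int_tr v Fi).2, hF, integral_add (i1.const_mul 2) hi, integral_const_mul, i2, h2, hS,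
        Real.volume_real_Icc_of_le (by linarith)]
      push_cast; ring

lemma upper {v : ℝ} (hv : 1 < v) {n : ℕ} (hn : 0 < n) :
    av (fun w => volume.real (Cov (Icc 0 (1 + v)) v n w)) ≤ 4 * (1 + v) / n := by
  obtain ⟨E, hi, h0, h1, h2⟩ := upper_aux hv n
  obtain ⟨i1, i2⟩ := int_P (v := v) (by linarith) measurableSet_Icc subset_rfl n
  have p : (0 : ℝ) < n := by exact_mod_cast hn
  rw [← i2]
  have : ∫ z, P (Icc 0 (1 + v)) v n z ≤ ∫ z, 2 / (n : ℝ) ^ 2 * E z := by
    refine integral_mono i1 (hi.const_mul _) fun z => ?_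
    have := h1 z
    have := h0 z
    have := (P01 (Icc 0 (1 + v)) v n z).1
    simp only
    rw [div_mul_eq_mul_div, le_div_iff₀ (by positivity)]
    nlinarith
  rw [integral_const_mul, h2] at this
  refine this.trans (le_of_eq ?_)
  field_simp; ring

noncomputable def Z (v : ℝ) : (n : ℕ) → Om n → ℝ → ℝ
  | 0, _, z => ind (Ico 0 1) z
  | n + 1, w, z => Z v n w.1.2 (sh v 0 w.1.1 z) + Z v n w.2.1.2 (sh v 1 w.2.1.1 z) +
      Z v n w.2.2.2 (sh v 2 w.2.2.1 z)

lemma Z_out (v : ℝ) (n : ℕ) (w : Om n) (z : ℝ) (h : z ∉ Cov (Icc 0 1) v n w) : Z v n w z = 0 := by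
  induction n generalizing z with
  | zero =>
    rw [cov_zero] at h
    simp [Z, ind, show z ∉ Ico (0 : ℝ) 1 from fun a => h (Ico_subset_Icc_self a)]
  | succ n ih =>
    rw [cov_succ] at h
    push Not at h
    simp [Z, ih _ _ h.1, ih _ _ h.2.1, ih _ _ h.2.2]

lemma Z0 (v : ℝ) (n : ℕ) (w : Om n) (z : ℝ) : 0 ≤ Z v n w z := by
  induction n generalizing z with
  | zero => exact (ind01 _ _).1
  | succ n ih => exact add_nonneg (add_nonneg (ih _ _) (ih _ _)) (ih _ _)

noncomputable def A (v : ℝ) (n : ℕ) (z : ℝ) : ℝ := av fun w => Z v n w z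

noncomputable def B (v : ℝ) (n : ℕ) (z : ℝ) : ℝ := av fun w => Z v n w z ^ 2

lemma A_succ (v : ℝ) (n : ℕ) (z : ℝ) : A v (n + 1) z = tr v (A v n) z := by
  have := av3_add (fun x : Bool × Om n => Z v n x.2 (sh v 0 x.1 z))
    (fun x => Z v n x.2 (sh v 1 x.1 z)) (fun x => Z v n x.2 (sh v 2 x.1 z))
  rw [av_hf, av_hf, av_hf] at this
  exact this

lemma B_succ (v : ℝ) (n : ℕ) (z : ℝ) : B v (n + 1) z = tr v (B v n) z +
    2 * (hf v 0 (A v n) z * hf v 1 (A v n) z + hf v 0 (A v n) z * hf v 2 (A v n) z +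
      hf v 1 (A v n) z * hf v 2 (A v n) z) := by
  have := av3_sq (fun x : Bool × Om n => Z v n x.2 (sh v 0 x.1 z))
    (fun x => Z v n x.2 (sh v 1 x.1 z)) (fun x => Z v n x.2 (sh v 2 x.1 z))
  rw [av_hf, av_hf, av_hf, av_hf v 0 (fun w y => Z v n w y ^ 2),
    av_hf v 1 (fun w y => Z v n w y ^ 2), av_hf v 2 (fun w y => Z v n w y ^ 2)] at this
  exact this

lemma A0 (v : ℝ) (n : ℕ) (z : ℝ) : 0 ≤ A v n z := av_nonneg fun _ => Z0 _ _ _ _

lemma A_sum (v : ℝ) (n : ℕ) : ∀ (L : ℕ) (z : ℝ), ∑ i ∈ Finset.range L, A v n (z - i) ≤ 1 := by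
  induction n with
  | zero =>
    intro L z
    have e : ∀ y, A v 0 y = ind (Ico 0 1) y := fun y => av_const (X := Om 0) _
    simp only [e]
    by_cases h : ∃ i ∈ Finset.range L, z - i ∈ Ico (0 : ℝ) 1
    · obtain ⟨i, hi, h⟩ := h
      rw [Finset.sum_eq_single i]
      · exact (ind01 _ _).2
      · intro j _ hj
        have : z - j ∉ Ico (0 : ℝ) 1 := by
          intro h'
          apply hj
          have a : (j : ℝ) < i + 1 := by linarith [h.2, h'.1]
          have b : (i : ℝ) < j + 1 := by linarith [h.1, h'.2]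
          have a' : j < i + 1 := by exact_mod_cast a
          have b' : i < j + 1 := by exact_mod_cast b
          omega
        simp [ind, this]
      · exact fun a => absurd hi a
    · push Not at h
      rw [Finset.sum_eq_zero fun i hi => by simp [ind, h i hi]]; norm_num
  | succ n ih =>
    intro L z
    have e : ∀ L : ℕ, ∑ i ∈ Finset.range L, A v (n + 1) (z - i) =
        (∑ i ∈ Finset.range (3 * L), A v n (sh v 0 false z - i) +
          ∑ i ∈ Finset.range (3 * L), A v n (sh v 0 true z - i)) / 2 := by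
      intro L
      induction L with
      | zero => simp
      | succ L ihL =>
        rw [Finset.sum_range_succ, ihL, show 3 * (L + 1) = 3 * L + 1 + 1 + 1 by ring]
        simp only [Finset.sum_range_succ, A_succ, tr, hf]
        have k : ∀ (d : ℝ) (r : Bool), sh v d r (z - L) = sh v 0 r z - (3 * L + d) := by
          intro d r; simp only [sh]; ring
        simp only [k]
        push_cast
        simp only [add_zero, add_assoc, one_add_one_eq_two]
        ring
    rw [e]
    linarith [ih (3 * L) (sh v 0 false z), ih (3 * L) (sh v 0 true z)]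

lemma A1 (v : ℝ) (n : ℕ) (z : ℝ) : A v n z ≤ 1 := by simpa using A_sum v n 1 z

lemma A_out {v : ℝ} (hv : 0 ≤ v) (n : ℕ) {z : ℝ} (hz : z ∉ Icc 0 (1 + v)) : A v n z = 0 := by
  have : ∀ w, Z v n w z = 0 := fun w => Z_out v n w z fun h =>
    hz (cov_sub hv (Icc_subset_Icc le_rfl (by linarith)) n w h)
  simp only [A, this, av_const]

lemma int_A (v : ℝ) (n : ℕ) : Integrable (A v n) ∧ ∫ z, A v n z = 1 := by
  induction n with
  | zero =>
    have e : A v 0 = ind (Ico 0 1) := funext fun y => av_const (X := Om 0) _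
    obtain ⟨a, b⟩ := int_ind (S := Ico (0 : ℝ) 1) measurableSet_Ico measure_Ico_lt_top.ne
    rw [e]
    exact ⟨a, by rw [b]; simp⟩
  | succ n ih =>
    have e : A v (n + 1) = tr v (A v n) := funext (A_succ v n)
    rw [e]
    exact ⟨(int_tr v ih.1).1, (int_tr v ih.1).2.trans ih.2⟩

lemma cross {v : ℝ} (hv : 0 ≤ v) (n : ℕ) {d e : ℝ} (h : d + 1 ≤ e) (z : ℝ) :
    hf v d (A v n) z * hf v e (A v n) z ≤ ind (Icc (e / 3) (e / 3 + v)) z := by
  have b : ∀ c, 0 ≤ hf v c (A v n) z ∧ hf v c (A v n) z ≤ 1 := fun c => by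
    simp only [hf]
    constructor
    · linarith [A0 v n (sh v c false z), A0 v n (sh v c true z)]
    · linarith [A1 v n (sh v c false z), A1 v n (sh v c true z)]
  by_cases hz : z ∈ Icc (e / 3) (e / 3 + v)
  · simp only [ind, indicator_of_mem hz, Pi.one_apply]
    exact mul_le_one₀ (b d).2 (b e).1 (b e).2
  · simp only [ind, indicator_of_notMem hz]
    rw [mem_Icc, not_and_or, not_le, not_le] at hz
    rcases hz with hz | hz
    · have : ∀ r, A v n (sh v e r z) = 0 := fun r => A_out hv n fun a => by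
        have := a.1
        cases r <;> simp [sh, bit] at this <;> linarith
      simp [hf, this]
    · have : ∀ r, A v n (sh v d r z) = 0 := fun r => A_out hv n fun a => by
        have := a.2
        cases r <;> simp [sh, bit] at this <;> linarith
      simp [hf, this]

lemma B_le {v : ℝ} (hv : 0 ≤ v) (n : ℕ) : ∃ E : ℝ → ℝ, Integrable E ∧ (∀ z, B v n z ≤ E z) ∧
    ∫ z, E z = 1 + 6 * v * n := by
  induction n with
  | zero =>
    obtain ⟨a, b⟩ := int_ind (S := Ico (0 : ℝ) 1) measurableSet_Ico measure_Ico_lt_top.ne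
    refine ⟨_, a, fun z => ?_, by rw [b]; simp⟩
    have e : B v 0 z = ind (Ico 0 1) z ^ 2 := av_const (X := Om 0) _
    have := ind01 (Ico (0 : ℝ) 1) z
    rw [e]; nlinarith
  | succ n ih =>
    obtain ⟨E, hi, h1, h2⟩ := ih
    obtain ⟨a, b⟩ := int_ind (S := Icc ((1 : ℝ) / 3) (1 / 3 + v)) measurableSet_Icc
      measure_Icc_lt_top.ne
    obtain ⟨c, d⟩ := int_ind (S := Icc ((2 : ℝ) / 3) (2 / 3 + v)) measurableSet_Icc
      measure_Icc_lt_top.ne
    have j : Integrable fun z => 2 * ind (Icc (1 / 3) (1 / 3 + v)) z +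
      4 * ind (Icc (2 / 3) (2 / 3 + v)) z := (a.const_mul 2).add (c.const_mul 4)
    refine ⟨fun z => tr v E z + (2 * ind (Icc (1 / 3) (1 / 3 + v)) z +
      4 * ind (Icc (2 / 3) (2 / 3 + v)) z), (int_tr v hi).1.add j, fun z => ?_, ?_⟩
    · have k1 := cross hv n (d := 0) (e := 1) (by norm_num) z
      have k2 := cross hv n (d := 0) (e := 2) (by norm_num) z
      have k3 := cross hv n (d := 1) (e := 2) (by norm_num) z
      have k4 : tr v (B v n) z ≤ tr v E z := by
        simp only [tr, hf]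
        gcongr <;> apply h1
      rw [B_succ]
      linarith
    · rw [integral_add (int_tr v hi).1 j, integral_add (a.const_mul 2) (c.const_mul 4),
        integral_const_mul, integral_const_mul, b, d, (int_tr v hi).2, h2,
        Real.volume_real_Icc_of_le (by linarith), Real.volume_real_Icc_of_le (by linarith)]
      push_cast; ring

lemma lower {v : ℝ} (hv : 0 ≤ v) (n : ℕ) :
    1 / (1 + 6 * v * n) ≤ av (fun w => volume.real (Cov (Icc 0 1) v n w)) := by
  obtain ⟨E, hi, h1, h2⟩ := B_le hv n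
  obtain ⟨i1, i2⟩ := int_P (v := v) hv measurableSet_Icc
    (Icc_subset_Icc le_rfl (by linarith : (1 : ℝ) ≤ 1 + v)) n
  obtain ⟨a1, a2⟩ := int_A v n
  set l := 1 / (1 + 6 * v * n) with hl
  have : ∫ z, (2 * l * A v n z - l ^ 2 * E z) ≤ ∫ z, P (Icc 0 1) v n z := by
    refine integral_mono ((a1.const_mul _).sub (hi.const_mul _)) i1 fun z => ?_
    have k : 2 * l * A v n z - l ^ 2 * B v n z ≤ P (Icc 0 1) v n z := by
      rw [A, B, ← av_mul, ← av_mul, ← av_sub]
      refine av_mono fun w => ?_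
      by_cases h : z ∈ Cov (Icc 0 1) v n w
      · simp only [ind, indicator_of_mem h, Pi.one_apply]
        nlinarith [sq_nonneg (l * Z v n w z - 1)]
      · simp [Z_out v n w z h, (ind01 _ _).1]
    have := mul_le_mul_of_nonneg_left (h1 z) (sq_nonneg l)
    simp only
    linarith
  rw [integral_sub (a1.const_mul _) (hi.const_mul _), integral_const_mul, integral_const_mul,
    a2, h2, i2] at this
  refine le_trans (le_of_eq ?_) this
  have : (0 : ℝ) < 1 + 6 * v * n := by positivity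
  rw [hl]; field_simp; ring

end Pool.Agent.H.MP_60620c_an
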