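import Pool.Agent.H.MP_60620c_an.B

namespace Pool.Agent.H.MP_60620c_an

open MeasureTheory Set
open scoped ENNReal

structure Bx where
  s : ℝ
  d : ℝ
  b : ℝ
  h : ℝ

def tube (k : ℝ) (Q : Bx) : Set (ℝ × ℝ) := {p | p.2 - Q.s * p.1 - Q.b ∈ Icc 0 (k * Q.h)}

def U (k : ℝ) (F : Finset Bx) : Set (ℝ × ℝ) := ⋃ Q ∈ F, tube k Q

def st (a b : ℝ) : Set (ℝ × ℝ) := Icc a b ×ˢ univ

lemma st_meas (a b : ℝ) : MeasurableSet (st a b) := measurableSet_Icc.prod MeasurableSet.univ

lemma tube_meas (k : ℝ) (Q : Bx) : MeasurableSet (tube k Q) :=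
  measurableSet_Icc.preimage (f := fun p : ℝ × ℝ => p.2 - Q.s * p.1 - Q.b) (by fun_prop)

lemma U_meas (k : ℝ) (F : Finset Bx) : MeasurableSet (U k F) :=
  Finset.measurableSet_biUnion _ fun Q _ => tube_meas k Q

lemma aff {a : ℝ} (ha : a ≠ 0) (b : ℝ) (C : Set ℝ) :
    volume {y | a * (y + b) ∈ C} = ENNReal.ofReal |a⁻¹| * volume C := by
  rw [← Real.volume_preimage_mul_left ha, ← measure_preimage_add_right volume b ((a * ·) ⁻¹' C)]
  rfl

lemma vol_st {S : Set (ℝ × ℝ)} (hS : MeasurableSet S) (a b : ℝ) :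
    volume (S ∩ st a b) = ∫⁻ x in Icc a b, volume (Prod.mk x ⁻¹' S) := by
  rw [Measure.volume_eq_prod, Measure.prod_apply (hS.inter (st_meas a b)),
    ← lintegral_indicator measurableSet_Icc]
  congr 1
  funext x
  by_cases h : x ∈ Icc a b
  · rw [indicator_of_mem h]; congr 1; ext y; simp [st, h.1, h.2]
  · rw [indicator_of_notMem h]
    have : Prod.mk x ⁻¹' (S ∩ st a b) = ∅ := by
      ext y; simp only [st, mem_preimage, mem_inter_iff, mem_prod, h]; simp
    simp [this]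

lemma vol_band (s c e a b : ℝ) :
    volume ({p : ℝ × ℝ | p.2 - s * p.1 ∈ Icc c e} ∩ st a b) =
      ENNReal.ofReal (e - c) * ENNReal.ofReal (b - a) := by
  have m : MeasurableSet {p : ℝ × ℝ | p.2 - s * p.1 ∈ Icc c e} :=
    measurableSet_Icc.preimage (f := fun p : ℝ × ℝ => p.2 - s * p.1) (by fun_prop)
  rw [vol_st m]
  have : ∀ x : ℝ, volume (Prod.mk x ⁻¹' {p : ℝ × ℝ | p.2 - s * p.1 ∈ Icc c e}) =
      ENNReal.ofReal (e - c) := by
    intro x
    have := aff one_ne_zero (-(s * x)) (Icc c e)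
    simp only [one_mul, inv_one, abs_one, ENNReal.ofReal_one, Real.volume_Icc] at this
    rw [← this]; rfl
  simp only [this, lintegral_const, Measure.restrict_apply MeasurableSet.univ, univ_inter,
    Real.volume_Icc]

lemma vol_tube (k : ℝ) (Q : Bx) (a b : ℝ) :
    volume (tube k Q ∩ st a b) = ENNReal.ofReal (k * Q.h) * ENNReal.ofReal (b - a) := by
  have := vol_band Q.s Q.b (Q.b + k * Q.h) a b
  rw [add_sub_cancel_left] at this
  rw [← this]
  congr 2
  ext p
  simp only [tube, mem_ofPred_eq, mem_Icc]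
  constructor <;> rintro ⟨h1, h2⟩ <;> constructor <;> linarith

lemma U_fin (k : ℝ) (F : Finset Bx) (a b : ℝ) : volume (U k F ∩ st a b) ≠ ⊤ := by
  rw [U, iUnion₂_inter]
  refine (measure_biUnion_lt_top F.finite_toSet fun Q _ => ?_).ne
  rw [vol_tube]
  exact ENNReal.mul_lt_top ENNReal.ofReal_lt_top ENNReal.ofReal_lt_top

open Classical in
noncomputable def cf (c δ x₀ τ : ℝ) (n : ℕ) (w : Om n) : Finset Bx :=
  (T n w).image fun a => ⟨c + δ * a.2, δ / 3 ^ n / 81, τ + δ * (a.1 / 20 - x₀ * a.2), δ / 20 / 3 ^ n⟩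

lemma mem_cf {δ : ℝ} (hδ : 0 < δ) (k c x₀ τ : ℝ) (n : ℕ) (w : Om n) (p : ℝ × ℝ) :
    p ∈ U k (cf c δ x₀ τ n w) ↔
      20 / δ * (p.2 - c * p.1 - τ) ∈ Cov (Icc 0 k) (20 * (p.1 - x₀)) n w := by
  classical
  simp only [U, cf, mem_iUnion, Finset.mem_image, exists_prop, exists_exists_and_eq_and, Cov,
    mem_ofPred_eq, tube]
  refine exists_congr fun a => and_congr_right fun _ => ?_
  have q : 0 < δ / 20 / 3 ^ n := by positivity
  have e : p.2 - (c + δ * a.2) * p.1 - (τ + δ * (a.1 / 20 - x₀ * a.2)) =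
      3 ^ n * (20 / δ * (p.2 - c * p.1 - τ) - a.1 - 20 * (p.1 - x₀) * a.2) * (δ / 20 / 3 ^ n) := by
    field_simp; ring
  rw [e, mem_Icc, mem_Icc, mul_le_mul_iff_left₀ q, mul_nonneg_iff_of_pos_right q]

lemma slice {δ : ℝ} (hδ : 0 < δ) (k c x₀ τ : ℝ) (n : ℕ) (w : Om n) (x : ℝ) :
    volume (Prod.mk x ⁻¹' U k (cf c δ x₀ τ n w)) =
      ENNReal.ofReal (δ / 20) * volume (Cov (Icc 0 k) (20 * (x - x₀)) n w) := by
  have := aff (a := 20 / δ) (by positivity) (-(c * x) - τ) (Cov (Icc 0 k) (20 * (x - x₀)) n w)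
  rw [inv_div, abs_of_pos (by positivity)] at this
  rw [← this]
  congr 1
  ext y
  simp only [mem_preimage, mem_cf hδ, mem_ofPred_eq]
  congr! 2
  ring

lemma sum_vol {v : ℝ} (hv : 0 ≤ v) {S : Set ℝ} (hS : S ⊆ Icc 0 (1 + v)) (n : ℕ) :
    ∑ w, volume (Cov S v n w) =
      ENNReal.ofReal (Fintype.card (Om n) * av fun w => volume.real (Cov S v n w)) := by
  have : (Fintype.card (Om n) : ℝ) ≠ 0 := by simp
  rw [av, mul_div_cancel₀ _ this, ENNReal.ofReal_sum_of_nonneg fun _ _ => measureReal_nonneg]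
  exact Finset.sum_congr rfl fun w _ => (ofReal_measureReal (cov_fin hv hS n w)).symm

lemma outer {δ : ℝ} (hδ : 0 < δ) (c : ℝ) {x₀ : ℝ} (h0 : 7 / 10 ≤ x₀) (h1 : x₀ ≤ 9 / 10) {n : ℕ}
    (hn : 0 < n) :
    av (fun w => volume.real (U 2 (cf c δ x₀ 0 n w) ∩ st 1 2)) ≤ 6 * δ / n := by
  have p : (0 : ℝ) < n := by exact_mod_cast hn
  have q : (0 : ℝ) < Fintype.card (Om n) := by exact_mod_cast Fintype.card_pos
  have k : ∑ w, volume (U 2 (cf c δ x₀ 0 n w) ∩ st 1 2) ≤
      ENNReal.ofReal (Fintype.card (Om n) * (6 * δ / n)) := by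
    simp only [vol_st (U_meas _ _)]
    rw [← lintegral_finsetSum _ fun w _ => measurable_measure_prodMk_left (U_meas _ _)]
    refine (setLIntegral_mono' (g := fun _ => ENNReal.ofReal (Fintype.card (Om n) * (6 * δ / n)))
      measurableSet_Icc fun x hx => ?_).trans (by simp; norm_num)
    simp only [slice hδ, ← Finset.mul_sum]
    have v1 : 2 ≤ 20 * (x - x₀) := by linarith [hx.1]
    have v2 : 20 * (x - x₀) ≤ 26 := by linarith [hx.2]
    set v := 20 * (x - x₀)
    have : ∑ w, volume (Cov (Icc 0 2) v n w) ≤ ∑ w, volume (Cov (Icc 0 (1 + v)) v n w) :=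
      Finset.sum_le_sum fun w _ => measure_mono fun z ⟨a, ha, hz⟩ =>
        ⟨a, ha, hz.1, hz.2.trans (by linarith)⟩
    refine (mul_le_mul_right this _).trans ?_
    rw [sum_vol (by linarith) subset_rfl, ← ENNReal.ofReal_mul (by positivity)]
    refine ENNReal.ofReal_le_ofReal ?_
    have u := upper (v := v) (by linarith) hn
    have u2 : 4 * (1 + v) / n ≤ 120 / n := by gcongr; linarith
    calc _ ≤ δ / 20 * (Fintype.card (Om n) * (120 / n)) := by gcongr; linarith
      _ = _ := by ring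
  rw [av, div_le_iff₀ q, mul_comm]
  simp only [Measure.real]
  rw [← ENNReal.toReal_sum fun w _ => U_fin _ _ _ _]
  exact ENNReal.toReal_le_of_le_ofReal (by positivity) k

lemma outer_eq {δ : ℝ} (hδ : 0 < δ) (c x₀ τ : ℝ) (n : ℕ) (w : Om n) :
    volume.real (U 2 (cf c δ x₀ τ n w) ∩ st 1 2) = volume.real (U 2 (cf c δ x₀ 0 n w) ∩ st 1 2) := by
  simp only [Measure.real, vol_st (U_meas _ _), slice hδ]

noncomputable def xs (n : ℕ) (i : ℕ) : ℝ := 7 / 10 + i / (10 * n)

noncomputable def Hn (n : ℕ) : ℝ := ∑ i ∈ Finset.range n, 1 / ((i : ℝ) + 1)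

lemma swap {δ : ℝ} (hδ : 0 < δ) (c x₀ α β : ℝ) (n : ℕ) (w : Om n) {W : Set (ℝ × ℝ)}
    (hW : MeasurableSet W) :
    ∫⁻ τ in Icc α β, volume (W ∩ U 1 (cf c δ x₀ τ n w)) =
      ∫⁻ p in W, volume ({τ | p ∈ U 1 (cf c δ x₀ τ n w)} ∩ Icc α β) ∧
    Measurable fun p => volume ({τ | p ∈ U 1 (cf c δ x₀ τ n w)} ∩ Icc α β) := by
  set R : Set (ℝ × (ℝ × ℝ)) := {q | q.2 ∈ U 1 (cf c δ x₀ q.1 n w)} with hR
  have mR : MeasurableSet R := by
    have : R = (fun q : ℝ × (ℝ × ℝ) => (q.2.1, q.2.2 - q.1)) ⁻¹' U 1 (cf c δ x₀ 0 n w) := by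
      ext q
      simp only [hR, mem_ofPred_eq, mem_preimage, mem_cf hδ]
      congr! 2
      ring
    rw [this]
    exact (U_meas _ _).preimage (by fun_prop)
  constructor
  · have a : ∀ τ, volume (W ∩ U 1 (cf c δ x₀ τ n w)) = ∫⁻ p in W, R.indicator 1 (τ, p) := by
      intro τ
      rw [inter_comm, ← Measure.restrict_apply (U_meas _ _), ← lintegral_indicator_one (U_meas _ _)]
      rfl
    simp only [a]
    rw [lintegral_lintegral_swap (f := fun τ p => R.indicator 1 (τ, p))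
      ((measurable_one.indicator mR).aemeasurable)]
    refine lintegral_congr fun p => ?_
    have m : MeasurableSet {τ | p ∈ U 1 (cf c δ x₀ τ n w)} :=
      mR.preimage (f := fun τ => (τ, p)) (by fun_prop)
    rw [← Measure.restrict_apply m, ← lintegral_indicator_one m]
    rfl
  · have := measurable_measure_prodMk_right (μ := volume)
      (mR.inter (measurableSet_Icc.prod MeasurableSet.univ : MeasurableSet (Icc α β ×ˢ univ)))
    convert this using 3 with p
    ext τ; simp [hR]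

lemma inner_pt {δ : ℝ} (hδ : 0 < δ) (c b h : ℝ) {n : ℕ} (hn : 0 < n) {p : ℝ × ℝ}
    (h1 : p.1 ∈ Icc (8 / 10 : ℝ) (9 / 10)) (h2 : p.2 - c * p.1 ∈ Icc (b + 2 * δ) (b + h - δ)) :
    ENNReal.ofReal (δ / 20 * (Fintype.card (Om n) * (Hn n / 25))) ≤
      ∑ i ∈ Finset.range (2 * n + 1), ∑ w : Om n,
        volume ({τ | p ∈ U 1 (cf c δ (xs n i) τ n w)} ∩ Icc (b + δ) (b + h - δ)) := by
  have q : (0 : ℝ) < n := by exact_mod_cast hn
  have q1 : (1 : ℝ) ≤ n := by exact_mod_cast hn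
  set j := ⌊(p.1 - 7 / 10) * (10 * n)⌋₊ with hj
  have j0 : 0 ≤ (p.1 - 7 / 10) * (10 * n) := by nlinarith [h1.1]
  have j1 : (j : ℝ) ≤ (p.1 - 7 / 10) * (10 * n) := Nat.floor_le j0
  have j2 : (p.1 - 7 / 10) * (10 * n) < j + 1 := Nat.lt_floor_add_one _
  have j3 : n ≤ j := Nat.le_floor (by nlinarith [h1.1])
  have j4 : j ≤ 2 * n := by
    have : (j : ℝ) ≤ 2 * n := by nlinarith [h1.2]
    exact_mod_cast this
  have one : ∀ l ∈ Finset.range n,
      ENNReal.ofReal (δ / 20 * (Fintype.card (Om n) * (1 / ((l : ℝ) + 1) / 25))) ≤ ∑ w : Om n,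
        volume ({τ | p ∈ U 1 (cf c δ (xs n (j - l)) τ n w)} ∩ Icc (b + δ) (b + h - δ)) := by
    intro l hl
    have hl' : l < n := Finset.mem_range.1 hl
    have l1 : (l : ℝ) + 1 ≤ n := by exact_mod_cast hl'
    set v := 20 * (p.1 - xs n (j - l)) with hv
    have vn : v * n = 2 * ((p.1 - 7 / 10) * (10 * n) - j + l) := by
      rw [hv, xs, Nat.cast_sub (by omega)]; field_simp; ring
    have l0 : (0 : ℝ) ≤ l := by positivity
    have v0 : 0 ≤ v := by
      by_contra a; push Not at a; nlinarith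
    have v2 : v ≤ 2 := by
      by_contra a; push Not at a; nlinarith
    have S : Icc (0 : ℝ) 1 ⊆ Icc 0 (1 + v) := Icc_subset_Icc le_rfl (by linarith)
    have e : ∀ w, volume ({τ | p ∈ U 1 (cf c δ (xs n (j - l)) τ n w)} ∩ Icc (b + δ) (b + h - δ)) =
        ENNReal.ofReal (δ / 20) * volume (Cov (Icc 0 1) v n w) := by
      intro w
      have := aff (a := -(20 / δ)) (by have : 0 < 20 / δ := by positivity
                                       linarith) (-(p.2 - c * p.1)) (Cov (Icc 0 1) v n w)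
      rw [inv_neg, abs_neg, inv_div, abs_of_pos (by positivity)] at this
      rw [← this]
      congr 1
      ext τ
      have ee : -(20 / δ) * (τ + -(p.2 - c * p.1)) = 20 / δ * (p.2 - c * p.1 - τ) := by ring
      simp only [mem_inter_iff, mem_ofPred_eq, mem_cf hδ, ee, ← hv, and_iff_left_iff_imp]
      intro a
      obtain ⟨a1, a2⟩ := cov_sub v0 S n w a
      rw [div_mul_eq_mul_div, le_div_iff₀ hδ] at a1
      rw [div_mul_eq_mul_div, div_le_iff₀ hδ] at a2
      constructor <;> nlinarith [h2.1, h2.2]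
    simp only [e, ← Finset.mul_sum]
    rw [sum_vol v0 S, ← ENNReal.ofReal_mul (by positivity)]
    refine ENNReal.ofReal_le_ofReal ?_
    gcongr
    refine le_trans ?_ (lower v0 n)
    rw [div_div]
    refine one_div_le_one_div_of_le (by positivity) ?_
    nlinarith
  rw [Hn, Finset.sum_div, Finset.mul_sum, Finset.mul_sum,
    ENNReal.ofReal_sum_of_nonneg fun _ _ => by positivity]
  refine (Finset.sum_le_sum one).trans ?_
  rw [← Finset.sum_image (s := Finset.range n) (g := fun l => j - l) (f := fun i => ∑ w : Om n,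
    volume ({τ | p ∈ U 1 (cf c δ (xs n i) τ n w)} ∩ Icc (b + δ) (b + h - δ)))]
  · refine Finset.sum_le_sum_of_subset fun i hi => ?_
    obtain ⟨l, -, rfl⟩ := Finset.mem_image.1 hi
    exact Finset.mem_range.2 (by omega)
  · intro a ha a' ha' e
    have := Finset.mem_range.1 ha
    have := Finset.mem_range.1 ha'
    simp only at e
    omega

end Pool.Agent.H.MP_60620c_an
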