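import Pool.Agent.H.MP_60620c_an.C

namespace Pool.Agent.H.MP_60620c_an

open MeasureTheory Set Filter Topology
open scoped ENNReal

def PS (s d : ℝ) : Set ℝ := (fun t => s + d * t) '' cantorSet

def G (c δ b h : ℝ) : Set (ℝ × ℝ) :=
  {p | p.2 - c * p.1 ∈ Icc (b + 2 * δ) (b + h - δ)} ∩ st (8 / 10) (9 / 10)

def Gd (c δ b h : ℝ) (Q : Bx) : Prop := 0 < Q.d ∧ 2 * Q.d ≤ Q.h ∧ Q.h ≤ δ ∧
  PS Q.s Q.d ⊆ PS c δ ∧ b ≤ Q.b ∧ Q.b + Q.h ≤ b + h

lemma third {t : ℝ} (h : t ∈ cantorSet) : t / 3 ∈ cantorSet := by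
  rw [cantorSet_eq_union_halves]; exact Or.inl ⟨t, h, rfl⟩

lemma third' {t : ℝ} (h : t ∈ cantorSet) : (2 + t) / 3 ∈ cantorSet := by
  rw [cantorSet_eq_union_halves]; exact Or.inr ⟨t, h, rfl⟩

lemma thirds {t : ℝ} (h : t ∈ cantorSet) (k : ℕ) : t / 3 ^ k ∈ cantorSet := by
  induction k with
  | zero => simpa
  | succ k ih => rw [pow_succ, ← div_div]; exact third ih

lemma cf_gd {δ : ℝ} (hδ : 0 < δ) (c : ℝ) {b h x₀ τ : ℝ} (h0 : 0 ≤ x₀) (h1 : x₀ ≤ 1)
    (hτ : τ ∈ Icc (b + δ) (b + h - δ)) (n : ℕ) (w : Om n) : ∀ Q ∈ cf c δ x₀ τ n w, Gd c δ b h Q := by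
  classical
  intro Q hQ
  obtain ⟨a, ha, rfl⟩ := Finset.mem_image.1 hQ
  obtain ⟨a1, a2, a3⟩ := T_prop n w a ha
  obtain ⟨a4, a5⟩ := T_slope ha
  have p : (0 : ℝ) < 1 / 3 ^ n := by positivity
  have e1 : δ / 3 ^ n / 81 = δ * (1 / 3 ^ n) / 81 := by ring
  have e2 : δ / 20 / 3 ^ n = δ * (1 / 3 ^ n) / 20 := by ring
  have p1 : x₀ * a.2 ≤ 1 := mul_le_one₀ h1 a4 (by linarith)
  have p2 := mul_nonneg h0 a4
  refine ⟨by positivity, ?_, ?_, ?_, ?_, ?_⟩
  · simp only [e1, e2]; nlinarith [mul_pos hδ p]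
  · simp only [e2]; nlinarith
  · rintro _ ⟨t, ht, rfl⟩
    exact ⟨_, a3 _ (thirds ht 4), by simp only; ring⟩
  · simp only; nlinarith [hτ.1]
  · simp only [e2]; nlinarith [hτ.2]

lemma G_fin (c δ b h : ℝ) : volume (G c δ b h) ≠ ⊤ := by
  rw [G, vol_band]
  exact ENNReal.mul_ne_top ENNReal.ofReal_ne_top ENNReal.ofReal_ne_top

lemma step {δ h : ℝ} (hδ : 0 < δ) (hh : 2 * δ < h) (c b : ℝ) {n : ℕ} (hn : 0 < n)
    {W : Set (ℝ × ℝ)} (hW : MeasurableSet W) (hG : W ⊆ G c δ b h) {l : ℝ} (hl : 0 ≤ l) :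
    ∃ F : Finset Bx, (∀ Q ∈ F, Gd c δ b h Q) ∧
      l * volume.real (W \ U 1 F) + volume.real (U 2 F ∩ st 1 2) ≤
        l * ((1 - δ * Hn n / (1500 * n * h)) * volume.real W) + 6 * δ / n := by
  have q : (0 : ℝ) < n := by exact_mod_cast hn
  have q1 : (1 : ℝ) ≤ n := by exact_mod_cast hn
  have h0 : 0 < h := by linarith
  have Wf : volume W ≠ ⊤ := ne_top_of_le_ne_top (G_fin c δ b h) (measure_mono hG)
  set K := Icc (b + δ) (b + h - δ) with hK
  set m : Fin (2 * n + 1) × Om n → ℝ≥0∞ := fun θ =>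
    ∫⁻ τ in K, volume (W ∩ U 1 (cf c δ (xs n θ.1) τ n θ.2)) with hm
  have mf : ∀ θ, m θ ≠ ⊤ := fun θ => by
    refine ne_top_of_le_ne_top ?_ (lintegral_mono (g := fun _ => volume W) fun τ =>
      measure_mono inter_subset_left)
    simp only [lintegral_const, Measure.restrict_apply MeasurableSet.univ, univ_inter]
    exact ENNReal.mul_ne_top Wf measure_Icc_lt_top.ne
  have xb : ∀ i : Fin (2 * n + 1), 7 / 10 ≤ xs n i ∧ xs n i ≤ 9 / 10 := fun i => by
    have : ((i : ℕ) : ℝ) ≤ 2 * n := by exact_mod_cast Nat.lt_succ_iff.1 i.2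
    have a : ((i : ℕ) : ℝ) / (10 * n) ≤ 2 / 10 := by rw [div_le_iff₀ (by positivity)]; linarith
    have : 0 ≤ ((i : ℕ) : ℝ) / (10 * n) := by positivity
    simp only [xs]; constructor <;> linarith
  have H0 : 0 ≤ Hn n := Finset.sum_nonneg fun _ _ => by positivity
  have cq : (0 : ℝ) < Fintype.card (Om n) := by exact_mod_cast Fintype.card_pos
  have sm : ENNReal.ofReal (δ / 20 * (Fintype.card (Om n) * (Hn n / 25))) * volume W ≤ ∑ θ, m θ := by
    simp only [hm, hK, (swap hδ _ _ _ _ _ _ hW).1]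
    rw [← lintegral_finsetSum _ fun θ _ => (swap hδ _ _ _ _ _ _ hW).2, ← setLIntegral_const]
    refine setLIntegral_mono' hW fun p hp => ?_
    rw [Fintype.sum_prod_type, Fin.sum_univ_eq_sum_range (fun i => ∑ w : Om n,
      volume ({τ | p ∈ U 1 (cf c δ (xs n i) τ n w)} ∩ Icc (b + δ) (b + h - δ)))]
    exact inner_pt hδ c b h hn (hG hp).2.1 (hG hp).1
  have am : δ * Hn n / (1500 * n) * volume.real W ≤ av fun θ => (m θ).toReal := by
    have := ENNReal.toReal_mono (ENNReal.sum_ne_top.2 fun θ _ => mf θ) sm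
    rw [ENNReal.toReal_mul, ENNReal.toReal_ofReal (by positivity),
      ENNReal.toReal_sum fun θ _ => mf θ] at this
    rw [av, le_div_iff₀ (by exact_mod_cast Fintype.card_pos)]
    refine le_trans ?_ this
    simp only [Fintype.card_prod, Fintype.card_fin, Measure.real]
    push_cast
    have : δ * Hn n / (1500 * n) * (2 * n + 1) ≤ δ * Hn n / 500 := by
      rw [div_mul_eq_mul_div, div_le_div_iff₀ (by positivity) (by positivity)]
      nlinarith [mul_nonneg hδ.le H0]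
    have := mul_le_mul_of_nonneg_right this
      (mul_nonneg cq.le (ENNReal.toReal_nonneg (a := volume W)))
    linarith
  have ao : av (fun θ : Fin (2 * n + 1) × Om n =>
      volume.real (U 2 (cf c δ (xs n θ.1) 0 n θ.2) ∩ st 1 2)) ≤ 6 * δ / n := by
    rw [av_prod]
    exact (av_mono fun i => outer hδ c (xb i).1 (xb i).2 hn).trans (av_const _).le
  obtain ⟨θ, hθ⟩ := av_ex fun θ : Fin (2 * n + 1) × Om n =>
    volume.real (U 2 (cf c δ (xs n θ.1) 0 n θ.2) ∩ st 1 2) - l / h * (m θ).toReal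
  rw [av_sub, av_mul] at hθ
  have K0 : volume K ≠ 0 := by
    rw [hK, Real.volume_Icc]; simp; linarith
  obtain ⟨τ, hτ, ht⟩ := exists_setLAverage_le K0 measurableSet_Icc.nullMeasurableSet (mf θ)
  rw [setLAverage_eq] at ht
  have ht' := ENNReal.toReal_mono (ne_top_of_le_ne_top Wf (measure_mono inter_subset_left)) ht
  rw [ENNReal.toReal_div, hK, Real.volume_Icc, ENNReal.toReal_ofReal (by linarith)] at ht'
  have t2 : (m θ).toReal / h ≤ volume.real (W ∩ U 1 (cf c δ (xs n θ.1) τ n θ.2)) := by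
    refine le_trans ?_ ht'
    exact div_le_div_of_nonneg_left ENNReal.toReal_nonneg (by linarith) (by linarith)
  refine ⟨cf c δ (xs n θ.1) τ n θ.2,
    cf_gd hδ c (by linarith [(xb θ.1).1]) (by linarith [(xb θ.1).2]) hτ n θ.2, ?_⟩
  rw [outer_eq hδ]
  have t3 := measureReal_inter_add_sdiff (s := W) (U_meas 1 (cf c δ (xs n θ.1) τ n θ.2)) Wf
  have t4 := mul_le_mul_of_nonneg_left t2 hl
  have t5 := mul_le_mul_of_nonneg_left am (div_nonneg hl h0.le)
  have e1 : l * ((1 - δ * Hn n / (1500 * n * h)) * volume.real W) =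
      l * volume.real W - l / h * (δ * Hn n / (1500 * n) * volume.real W) := by
    field_simp
  have e2 : l * ((m θ).toReal / h) = l / h * (m θ).toReal := by ring
  rw [e1, ← t3, mul_add]
  rw [← t3] at t5
  linarith

lemma U_union (k : ℝ) (F F' : Finset Bx) [DecidableEq Bx] : U k (F ∪ F') = U k F ∪ U k F' := by
  simp only [U, Finset.set_biUnion_union]

lemma steps {δ h : ℝ} (hδ : 0 < δ) (hh : 2 * δ < h) (c b : ℝ) {n : ℕ} (hn : 0 < n) (M : ℕ) :
    ∀ {W : Set (ℝ × ℝ)}, MeasurableSet W → W ⊆ G c δ b h →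
    ∃ F : Finset Bx, (∀ Q ∈ F, Gd c δ b h Q) ∧
      volume.real (W \ U 1 F) + volume.real (U 2 F ∩ st 1 2) ≤
        (1 - δ * Hn n / (1500 * n * h)) ^ M * volume.real W + M * (6 * δ / n) := by
  classical
  have q : (0 : ℝ) < n := by exact_mod_cast hn
  have r0 : 0 ≤ 1 - δ * Hn n / (1500 * n * h) := by
    have : Hn n ≤ n := by
      refine (Finset.sum_le_card_nsmul _ _ 1 fun i _ => ?_).trans (by simp)
      rw [div_le_one (by positivity)]; simp
    rw [sub_nonneg, div_le_one (by have : 0 < h := by linarith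
                                   positivity)]
    nlinarith [mul_le_mul_of_nonneg_left this hδ.le]
  induction M with
  | zero => exact fun _ _ => ⟨∅, by simp, by simp [U]⟩
  | succ M ih =>
    intro W hW hG
    obtain ⟨F, a1, a2⟩ := step hδ hh c b hn hW hG (pow_nonneg r0 M)
    obtain ⟨F', b1, b2⟩ := ih (hW.diff (U_meas 1 F)) (sdiff_subset.trans hG)
    refine ⟨F ∪ F', fun Q hQ => (Finset.mem_union.1 hQ).elim (a1 Q) (b1 Q), ?_⟩
    rw [U_union, U_union, ← Set.sdiff_sdiff, union_inter_distrib_right]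
    have := measureReal_union_le (μ := volume) (U 2 F ∩ st 1 2) (U 2 F' ∩ st 1 2)
    push_cast
    rw [pow_succ]
    linarith

lemma fill {δ h ε : ℝ} (hδ : 0 < δ) (hh : 2 * δ < h) (hε : 0 < ε) (c b : ℝ) :
    ∃ F : Finset Bx, (∀ Q ∈ F, Gd c δ b h Q) ∧
      volume.real (G c δ b h \ U 1 F) + volume.real (U 2 F ∩ st 1 2) ≤ ε := by
  have h0 : 0 < h := by linarith
  set L := 3 * h / ε with hL
  have L0 : 0 < L := by positivity
  obtain ⟨n, n1, n2, n3⟩ : ∃ n : ℕ, 0 < n ∧ 18 * δ / ε ≤ n ∧ 27000 * L * h / ε ≤ Hn n :=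
    ((eventually_gt_atTop 0).and ((tendsto_natCast_atTop_atTop.eventually_ge_atTop _).and
      (Real.tendsto_sum_range_one_div_nat_succ_atTop.eventually_ge_atTop _))).exists
  have q : (0 : ℝ) < n := by exact_mod_cast n1
  have H0 : 0 < Hn n := lt_of_lt_of_le (by positivity) n3
  set r := δ * Hn n / (1500 * n * h) with hr
  have r0 : 0 < r := by positivity
  have mG : MeasurableSet (G c δ b h) :=
    (measurableSet_Icc.preimage (f := fun p : ℝ × ℝ => p.2 - c * p.1) (by fun_prop)).inter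
      (st_meas _ _)
  obtain ⟨F, a1, a2⟩ := steps hδ hh c b n1 ⌈L / r⌉₊ mG subset_rfl
  refine ⟨F, a1, a2.trans ?_⟩
  rw [← hr]
  set M := ⌈L / r⌉₊
  have M1 : L / r ≤ M := Nat.le_ceil _
  have M2 : (M : ℝ) ≤ L / r + 1 := (Nat.ceil_lt_add_one (by positivity)).le
  have vG : volume.real (G c δ b h) ≤ h := by
    rw [Measure.real, G, vol_band, ← ENNReal.ofReal_mul' (by norm_num)]
    exact ENNReal.toReal_le_of_le_ofReal h0.le (ENNReal.ofReal_le_ofReal (by nlinarith))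
  have e1 : |1 - r| ^ M ≤ 1 / L := by
    have r1 : r ≤ 1 := by
      have : Hn n ≤ n := by
        refine (Finset.sum_le_card_nsmul _ _ 1 fun i _ => ?_).trans (by simp)
        rw [div_le_one (by positivity)]; simp
      rw [hr, div_le_one (by positivity)]
      nlinarith [mul_le_mul_of_nonneg_left this hδ.le]
    rw [abs_of_nonneg (by linarith)]
    have : (1 - r) ^ M ≤ Real.exp (-r) ^ M :=
      pow_le_pow_left₀ (by linarith) (by linarith [Real.add_one_le_exp (-r)]) M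
    refine this.trans ?_
    rw [← Real.exp_nat_mul, mul_neg, Real.exp_neg, ← one_div]
    refine one_div_le_one_div_of_le L0 ?_
    rw [div_le_iff₀ r0] at M1
    linarith [Real.add_one_le_exp (M * r)]
  have e2 : (1 - r) ^ M * volume.real (G c δ b h) ≤ ε / 3 := by
    calc _ ≤ 1 / L * h := mul_le_mul ((le_abs_self _).trans ((abs_pow _ _).le.trans e1)) vG
          measureReal_nonneg (by positivity)
      _ = _ := by rw [hL]; field_simp
  have e3 : 6 * δ / n ≤ ε / 3 := by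
    rw [div_le_iff₀ hε] at n2
    rw [div_le_iff₀ q]; linarith
  have e4 : L / r * (6 * δ / n) ≤ ε / 3 := by
    rw [div_le_iff₀ hε] at n3
    have : L / r * (6 * δ / n) = 9000 * L * h / Hn n := by rw [hr]; field_simp; ring
    rw [this, div_le_iff₀ H0]; linarith
  have := mul_le_mul_of_nonneg_right M2 (show 0 ≤ 6 * δ / n by positivity)
  linarith

end Pool.Agent.H.MP_60620c_an
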