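import Pool.Agent.H.MP_60620c_an.D

namespace Pool.Agent.H.MP_60620c_an

open MeasureTheory Set Filter Topology
open scoped ENNReal

def Ok (Q : Bx) : Prop := 0 < Q.d ∧ 2 * Q.d ≤ Q.h ∧ PS Q.s Q.d ⊆ cantorSet

def DD (F : Finset Bx) : Set (ℝ × ℝ) := ⋃ Q ∈ F, PS Q.s Q.d ×ˢ Icc Q.b (Q.b + Q.h)

lemma PS_sub {s d : ℝ} (hd : 0 ≤ d) : PS s d ⊆ Icc s (s + d) := by
  rintro _ ⟨t, ht, rfl⟩
  obtain ⟨a, b⟩ := cantorSet_subset_unitInterval ht
  constructor <;> nlinarith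

lemma DD_cpt (F : Finset Bx) : IsCompact (DD F) :=
  F.isCompact_biUnion fun _ _ => (isCompact_cantorSet.image (by fun_prop)).prod isCompact_Icc

lemma inj_choice {ι : Type} (F : Finset ι) (X : ι → Set ℝ) (h : ∀ i ∈ F, (X i).Infinite) :
    ∃ c : ι → ℝ, InjOn c F ∧ ∀ i ∈ F, c i ∈ X i := by
  classical
  induction F using Finset.induction_on with
  | empty => exact ⟨0, by simp, by simp⟩
  | insert a F ha ih =>
    obtain ⟨c, h1, h2⟩ := ih fun i hi => h i (Finset.mem_insert_of_mem hi)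
    obtain ⟨y, y1, y2⟩ := (h a (Finset.mem_insert_self _ _)).exists_notMem_finset (F.image c)
    have e : ∀ i ∈ F, Function.update c a y i = c i := fun i hi =>
      Function.update_of_ne (by rintro rfl; exact ha hi) _ _
    refine ⟨Function.update c a y, ?_, fun i hi => ?_⟩
    · rw [Finset.coe_insert, injOn_insert (by simpa)]
      refine ⟨h1.congr fun i hi => (e i hi).symm, ?_⟩
      rintro ⟨i, hi, k⟩
      rw [e i hi, Function.update_self] at k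
      exact y2 (Finset.mem_image.2 ⟨i, hi, k⟩)
    · rcases Finset.mem_insert.1 hi with rfl | hi
      · simpa
      · rw [e i hi]; exact h2 i hi

lemma small {d κ : ℝ} (hκ : 0 < κ) : ∃ k : ℕ, d / 3 ^ k ≤ κ := by
  have : Tendsto (fun k : ℕ => d / 3 ^ k) atTop (𝓝 0) :=
    tendsto_const_nhds.div_atTop (tendsto_pow_atTop_atTop_of_one_lt (by norm_num))
  exact (this.eventually (ge_mem_nhds hκ)).exists

lemma X_inf {s d η : ℝ} (hd : 0 < d) (hη : 0 < η) :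
    {c | c ∈ Icc s (s + η) ∧ ∀ κ > 0, ∃ δ ∈ Ioc 0 κ, PS c δ ⊆ PS s d}.Infinite := by
  obtain ⟨p, hp⟩ := small (d := d) hη
  refine infinite_of_injective_forall_mem (f := fun i : ℕ => s + d / 3 ^ p / 3 ^ i * (2 / 3))
    (fun i j e => ?_) fun i => ⟨⟨?_, ?_⟩, fun κ hκ => ?_⟩
  · have : (3 : ℝ) ^ i = 3 ^ j := by
      simp only [add_right_inj] at e
      field_simp at e
      exact e.symm
    exact pow_right_injective₀ (by norm_num) (by norm_num) this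
  · simp only [le_add_iff_nonneg_right]; positivity
  · have : d / 3 ^ p / 3 ^ i ≤ d / 3 ^ p :=
      div_le_self (by positivity) (one_le_pow₀ (by norm_num))
    have : 0 < d / 3 ^ p / 3 ^ i := by positivity
    linarith
  · obtain ⟨k, hk⟩ := small (d := d / 3 ^ p / 3 ^ i / 3) hκ
    refine ⟨_, ⟨by positivity, hk⟩, ?_⟩
    rintro _ ⟨t, ht, rfl⟩
    exact ⟨_, thirds (thirds (third' (thirds ht k)) i) p, by simp only; ring⟩

lemma stage (F : Finset Bx) (hF : ∀ Q ∈ F, Ok Q) {ε : ℝ} (hε : 0 < ε) :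
    ∃ F' : Finset Bx, (∀ Q ∈ F', Ok Q) ∧ (∀ Q ∈ F', Q.h ≤ ε) ∧ DD F' ⊆ DD F ∧
      (∀ a ∈ DD F', ∀ a' ∈ DD F', a.1 = a'.1 → ∃ Q ∈ F, |a.2 - a'.2| ≤ Q.h) ∧
      volume ((U 1 F ∩ st (8 / 10) (9 / 10)) \ U 1 F') ≤ ENNReal.ofReal ε ∧
      volume (U 2 F' ∩ st 1 2) ≤ ENNReal.ofReal ε := by
  classical
  set η := ε / (2 * (F.card + 1)) with hη
  have η0 : 0 < η := by positivity
  have η1 : F.card * (2 * η) ≤ ε := by
    rw [hη, mul_div_assoc', mul_div_assoc', div_le_iff₀ (by positivity)]; nlinarith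
  have η2 : η ≤ ε := div_le_self hε.le (by have : (0 : ℝ) ≤ F.card := by positivity
                                           linarith)
  obtain ⟨c, c1, c2⟩ := inj_choice F (fun Q => {c | c ∈ Icc Q.s (Q.s + η) ∧
    ∀ κ > 0, ∃ δ ∈ Ioc 0 κ, PS c δ ⊆ PS Q.s Q.d}) fun Q hQ => X_inf (hF Q hQ).1 η0
  obtain ⟨κ, κ1, κ2, κ3, κ0⟩ : ∃ κ : ℝ, κ < η ∧ (∀ Q ∈ F, κ < Q.h / 2) ∧
      (∀ Q ∈ F, ∀ Q' ∈ F, Q ≠ Q' → κ < |c Q - c Q'|) ∧ 0 < κ := by
    have lt : ∀ x : ℝ, 0 < x → ∀ᶠ κ in 𝓝[>] (0 : ℝ), κ < x := fun x hx =>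
      mem_nhdsWithin_of_mem_nhds (gt_mem_nhds hx)
    refine ((lt η η0).and (((eventually_all_finset F).2 fun Q hQ => lt _ ?_).and
      (((eventually_all_finset F).2 fun Q hQ => (eventually_all_finset F).2 fun Q' hQ' => ?_).and
      self_mem_nhdsWithin))).exists
    · linarith [(hF Q hQ).1, (hF Q hQ).2.1]
    · by_cases h : Q = Q'
      · simp [h]
      · exact (lt _ (abs_pos.2 (sub_ne_zero.2 fun e => h (c1 hQ hQ' e)))).mono fun _ a _ => a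
  have ex : ∀ Q, ∃ (δ : ℝ) (E : Finset Bx), Q ∈ F → δ ∈ Ioc 0 κ ∧ PS (c Q) δ ⊆ PS Q.s Q.d ∧
      (∀ R ∈ E, Gd (c Q) δ Q.b Q.h R) ∧
      volume.real (G (c Q) δ Q.b Q.h \ U 1 E) + volume.real (U 2 E ∩ st 1 2) ≤ η := by
    intro Q
    by_cases hQ : Q ∈ F
    · obtain ⟨δ, d1, d2⟩ := (c2 Q hQ).2 κ κ0
      obtain ⟨E, e1, e2⟩ := fill (h := Q.h) d1.1 (by linarith [κ2 Q hQ, d1.2]) η0 (c Q) Q.b
      exact ⟨δ, E, fun _ => ⟨d1, d2, e1, e2⟩⟩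
    · exact ⟨0, ∅, fun h => absurd h hQ⟩
  choose δ E hE using ex
  have par : ∀ a ∈ DD (F.biUnion E), ∃ Q ∈ F, a.1 ∈ PS (c Q) (δ Q) ∧ a.2 ∈ Icc Q.b (Q.b + Q.h) := by
    intro a ha
    simp only [DD, mem_iUnion, Finset.mem_biUnion, exists_prop] at ha
    obtain ⟨R, ⟨Q, hQ, hR⟩, a1, a2⟩ := ha
    obtain ⟨-, -, -, g4, g5, g6⟩ := (hE Q hQ).2.2.1 R hR
    exact ⟨Q, hQ, g4 a1, g5.trans a2.1, a2.2.trans g6⟩
  have sm : ∀ f : Bx → Set (ℝ × ℝ), (∀ Q ∈ F, volume (f Q) ≤ ENNReal.ofReal (2 * η)) →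
      volume (⋃ Q ∈ F, f Q) ≤ ENNReal.ofReal ε := by
    intro f hf
    refine (measure_biUnion_finset_le F f).trans ((Finset.sum_le_card_nsmul _ _ _ hf).trans ?_)
    rw [nsmul_eq_mul, ← ENNReal.ofReal_natCast, ← ENNReal.ofReal_mul (by positivity)]
    exact ENNReal.ofReal_le_ofReal η1
  have UU : ∀ k, U k (F.biUnion E) = ⋃ Q ∈ F, U k (E Q) := fun k => by
    simp only [U, Finset.set_biUnion_biUnion]
  refine ⟨F.biUnion E, fun R hR => ?_, fun R hR => ?_, fun a ha => ?_, fun a ha a' ha' e => ?_, ?_, ?_⟩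
  · obtain ⟨Q, hQ, hR⟩ := Finset.mem_biUnion.1 hR
    obtain ⟨g1, g2, -, g4, -⟩ := (hE Q hQ).2.2.1 R hR
    exact ⟨g1, g2, g4.trans ((hE Q hQ).2.1.trans (hF Q hQ).2.2)⟩
  · obtain ⟨Q, hQ, hR⟩ := Finset.mem_biUnion.1 hR
    linarith [((hE Q hQ).2.2.1 R hR).2.2.1, (hE Q hQ).1.2]
  · obtain ⟨Q, hQ, a1, a2⟩ := par a ha
    exact mem_iUnion₂.2 ⟨Q, hQ, (hE Q hQ).2.1 a1, a2⟩
  · obtain ⟨Q, hQ, a1, a2⟩ := par a ha
    obtain ⟨Q', hQ', b1, b2⟩ := par a' ha'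
    obtain rfl : Q = Q' := by
      by_contra h
      have k := κ3 Q hQ Q' hQ' h
      have k1 := PS_sub (hE Q hQ).1.1.le a1
      have k2 := PS_sub (hE Q' hQ').1.1.le b1
      have : |c Q - c Q'| ≤ κ := abs_le.2 ⟨by linarith [k1.2, k2.1, (hE Q hQ).1.2],
        by linarith [k1.1, k2.2, (hE Q' hQ').1.2]⟩
      linarith
    exact ⟨Q, hQ, abs_le.2 ⟨by linarith [a2.1, b2.2], by linarith [a2.2, b2.1]⟩⟩
  · refine le_trans (measure_mono ?_) (sm (fun Q => (G (c Q) (δ Q) Q.b Q.h \ U 1 (E Q)) ∪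
      ({p : ℝ × ℝ | p.2 - Q.s * p.1 ∈ Icc Q.b (Q.b + 3 * η)} ∩ st (8 / 10) (9 / 10) ∪
      {p : ℝ × ℝ | p.2 - Q.s * p.1 ∈ Icc (Q.b + Q.h - η) (Q.b + Q.h)} ∩ st (8 / 10) (9 / 10)))
      fun Q hQ => ?_)
    · rintro p ⟨⟨p1, p2⟩, p3⟩
      obtain ⟨Q, hQ, p1⟩ := mem_iUnion₂.1 p1
      rw [UU] at p3
      refine mem_iUnion₂.2 ⟨Q, hQ, ?_⟩
      have t1 := p1.1
      have t2 := p1.2
      have d1 := (hE Q hQ).1.2
      obtain ⟨x1, x2⟩ := p2.1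
      obtain ⟨s1, s2⟩ := (c2 Q hQ).1
      by_cases h1 : p.2 - Q.s * p.1 ≤ Q.b + 3 * η
      · exact Or.inr (Or.inl ⟨⟨by linarith, h1⟩, p2⟩)
      by_cases h2 : Q.b + Q.h - η ≤ p.2 - Q.s * p.1
      · exact Or.inr (Or.inr ⟨⟨h2, by linarith⟩, p2⟩)
      exact Or.inl ⟨⟨⟨by nlinarith, by nlinarith⟩, p2⟩, fun h => p3 (mem_iUnion₂.2 ⟨Q, hQ, h⟩)⟩
    · refine (measure_union_le _ _).trans ((add_le_add_right (measure_union_le _ _) _).trans ?_)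
      rw [vol_band, vol_band, ← ofReal_measureReal (ne_top_of_le_ne_top (G_fin _ _ _ _)
        (measure_mono sdiff_subset)), ← ENNReal.ofReal_mul' (by norm_num),
        ← ENNReal.ofReal_mul' (by norm_num), ← ENNReal.ofReal_add (by linarith) (by linarith),
        ← ENNReal.ofReal_add measureReal_nonneg (by linarith)]
      refine ENNReal.ofReal_le_ofReal ?_
      linarith [(hE Q hQ).2.2.2, measureReal_nonneg (μ := volume) (s := U 2 (E Q) ∩ st 1 2)]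
  · rw [UU, iUnion₂_inter]
    refine sm _ fun Q hQ => ?_
    rw [← ofReal_measureReal (U_fin _ _ _ _)]
    refine ENNReal.ofReal_le_ofReal ?_
    linarith [(hE Q hQ).2.2.2,
      measureReal_nonneg (μ := volume) (s := G (c Q) (δ Q) Q.b Q.h \ U 1 (E Q))]

theorem dual : ∃ A : Set (ℝ × ℝ), (∀ a ∈ A, a.1 ∈ cantorSet) ∧
    (∀ a ∈ A, ∀ a' ∈ A, a.1 = a'.1 → a.2 = a'.2) ∧
    volume ({p : ℝ × ℝ | ∃ a ∈ A, p.2 = a.2 + a.1 * p.1} ∩ st 1 2) = 0 ∧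
    ∃ K : Set (ℝ × ℝ), MeasurableSet K ∧ 0 < volume K ∧
      K ⊆ {p : ℝ × ℝ | ∃ a ∈ A, p.2 = a.2 + a.1 * p.1} ∩ st (8 / 10) (9 / 10) := by
  set e : ℕ → ℝ := fun n => 1 / 50 / 2 / 2 ^ n with he
  have e0 : ∀ n, 0 < e n := fun n => by positivity
  have es : HasSum e (1 / 50) := hasSum_geometric_two' _
  have et := es.summable.tendsto_atTop_zero
  choose nx n1 n2 n3 n4 n5 n6 using fun (F : {F : Finset Bx // ∀ Q ∈ F, Ok Q}) (n : ℕ) =>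
    stage F.1 F.2 (e0 n)
  have o : Ok ⟨0, 1, 0, 2⟩ := ⟨one_pos, by norm_num, by rintro _ ⟨t, ht, rfl⟩; simpa⟩
  let S : ℕ → {F : Finset Bx // ∀ Q ∈ F, Ok Q} := fun n =>
    Nat.rec ⟨{⟨0, 1, 0, 2⟩}, by simpa⟩ (fun n F => ⟨nx F n, n1 F n⟩) n
  have Ss : ∀ n, (S (n + 1)).1 = nx (S n) n := fun n => rfl
  refine ⟨⋂ n, DD (S n).1, fun a ha => ?_, fun a ha a' ha' h => ?_, ?_,
    ⋂ n, U 1 (S n).1 ∩ st (8 / 10) (9 / 10),
    MeasurableSet.iInter fun n => (U_meas _ _).inter (st_meas _ _), ?_, fun p hp => ?_⟩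
  · obtain ⟨Q, hQ, a1⟩ := mem_iUnion₂.1 (mem_iInter.1 ha 0)
    exact ((S 0).2 Q hQ).2.2 a1.1
  · have : |a.2 - a'.2| ≤ 0 := by
      refine ge_of_tendsto' et fun n => ?_
      obtain ⟨Q, hQ, k⟩ := n4 (S (n + 1)) (n + 1) a (mem_iInter.1 ha (n + 2)) a'
        (mem_iInter.1 ha' (n + 2)) h
      exact k.trans (n2 _ _ Q hQ)
    exact sub_eq_zero.1 (abs_nonpos_iff.1 this)
  · refine le_antisymm ?_ bot_le
    have := ENNReal.tendsto_ofReal et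
    rw [ENNReal.ofReal_zero] at this
    refine ge_of_tendsto' this fun n => le_trans (measure_mono ?_) (n6 (S n) n)
    rintro p ⟨⟨a, ha, k⟩, p2⟩
    obtain ⟨Q, hQ, a1, a2⟩ := mem_iUnion₂.1 (mem_iInter.1 ha (n + 1))
    obtain ⟨o1, o2, -⟩ := (S (n + 1)).2 Q hQ
    obtain ⟨b1, b2⟩ := PS_sub o1.le a1
    obtain ⟨x1, x2⟩ := p2.1
    exact ⟨mem_iUnion₂.2 ⟨Q, hQ, by nlinarith [a2.1], by nlinarith [a2.2]⟩, p2⟩
  · refine pos_iff_ne_zero.2 fun h => ?_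
    have sub : U 1 (S 0).1 ∩ st (8 / 10) (9 / 10) ⊆ (⋂ n, U 1 (S n).1 ∩ st (8 / 10) (9 / 10)) ∪
        ⋃ n, (U 1 (S n).1 ∩ st (8 / 10) (9 / 10)) \ U 1 (S (n + 1)).1 := by
      intro p hp
      by_contra k
      simp only [mem_union, mem_iUnion, not_or, not_exists, Set.mem_sdiff, not_and, not_not] at k
      refine k.1 (mem_iInter.2 fun n => ?_)
      induction n with
      | zero => exact hp
      | succ n ih => exact ⟨k.2 n ih, hp.2⟩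
    have := (measure_mono (μ := volume) sub).trans ((measure_union_le _ _).trans
      (add_le_add h.le ((measure_iUnion_le _).trans (ENNReal.tsum_le_tsum fun n => n5 (S n) n))))
    rw [zero_add, ← ENNReal.ofReal_tsum_of_nonneg (fun n => (e0 n).le) es.summable, es.tsum_eq] at this
    have u : U 1 (S 0).1 = tube 1 ⟨0, 1, 0, 2⟩ := by simp [U, S]
    rw [u, vol_tube, ← ENNReal.ofReal_mul (by norm_num),
      ENNReal.ofReal_le_ofReal_iff (by norm_num)] at this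
    norm_num at this
  · refine ⟨?_, (mem_iInter.1 hp 0).2⟩
    have cl : IsClosed {a : ℝ × ℝ | p.2 = a.2 + a.1 * p.1} := isClosed_eq (by fun_prop) (by fun_prop)
    have ne : ∀ n, (DD (S n).1 ∩ {a : ℝ × ℝ | p.2 = a.2 + a.1 * p.1}).Nonempty := fun n => by
      obtain ⟨Q, hQ, k1, k2⟩ := mem_iUnion₂.1 (mem_iInter.1 hp n).1
      exact ⟨(Q.s, p.2 - Q.s * p.1), mem_iUnion₂.2 ⟨Q, hQ, ⟨0, zero_mem_cantorSet, by simp⟩,
        by simp only; linarith, by simp only; linarith⟩, by simp⟩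
    obtain ⟨a, ha⟩ := IsCompact.nonempty_iInter_of_sequence_nonempty_isCompact_isClosed
      (fun n => DD (S n).1 ∩ {a : ℝ × ℝ | p.2 = a.2 + a.1 * p.1})
      (fun n => inter_subset_inter_left _ (n3 (S n) n)) ne
      ((DD_cpt _).inter_right cl) fun n => (DD_cpt _).isClosed.inter cl
    exact ⟨a, mem_iInter.2 fun n => (mem_iInter.1 ha n).1, (mem_iInter.1 ha 0).2⟩

end Pool.Agent.H.MP_60620c_an
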